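import Pool.Agent.Lib.MP_5c318e_ag.Fo.Plc

/-! Fields of definition: specialisation, amalgamation, transport. -/

set_option autoImplicit false

namespace Pool.Agent.Lib.MP_5c318e_ag.Fo

open Filter Set

variable {Om : Type} [Field Om]

/-- `Mb / Kb` is defined over `K0` -/
def DO (K0 Kb Mb : Subfield Om) : Prop :=
  ∃ S : Finset Om, Mb = adj Kb S ∧ LD K0 (adj K0 S) Kb

/-- `L(S)` is free from `Kb` over `L` -/
def Free (L : Subfield Om) (S : Set Om) (Kb : Subfield Om) : Prop :=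
  ∃ (n : ℕ) (u : Fin n → Om), (∀ i, u i ∈ S) ∧ AlgebraicIndependent Kb u ∧
    ∀ y ∈ S, y ∈ acl (adj L (range u))

theorem adj_mono {F F' : Subfield Om} {S S' : Set Om} (h : F ≤ F') (hS : S ⊆ S') :
    adj F S ≤ adj F' S' := adj_le (h.trans (le_adj _ _)) fun _ hy => mem_adj _ (hS hy)

theorem ind_acl {ι : Type*} {k : Subfield Om} {u : ι → Om} (h : AlgebraicIndependent k u) :
    AlgebraicIndependent (acl k) u := h.algebraicClosure

theorem ind_iff_li {ι k : Type*} [Field k] [Algebra k Om] {u : ι → Om} :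
    AlgebraicIndependent k u ↔ LinearIndependent k fun m : ι →₀ ℕ => m.prod fun i e => u i ^ e := by
  have e : (fun m : ι →₀ ℕ => m.prod fun i e => u i ^ e) =
      (MvPolynomial.aeval (R := k) u).toLinearMap ∘ MvPolynomial.basisMonomials ι k := by
    funext m
    simp [MvPolynomial.aeval_monomial]
  rw [e, algebraicIndependent_iff_injective_aeval]
  refine ⟨fun h => (MvPolynomial.basisMonomials ι k).linearIndependent.map' _
    (LinearMap.ker_eq_bot.2 h), fun h => ?_⟩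
  rw [linearIndependent_iff_injective_finsuppLinearCombination, Finsupp.linearCombination_linear_comp]
    at h
  refine Function.Injective.of_comp_right (g := Finsupp.linearCombination k
    (MvPolynomial.basisMonomials ι k)) h fun p => ⟨_, (MvPolynomial.basisMonomials ι k).linearCombination_repr p⟩

theorem ind_of_LD {ι : Type*} {K0 A B : Subfield Om} (h : LD K0 A B) {u : ι → Om}
    (hu : ∀ i, u i ∈ B) (hi : AlgebraicIndependent K0 u) : AlgebraicIndependent A u :=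
  ind_iff_li.2 (h.linearIndependent (fun _ => prod_mem fun i _ => pow_mem (hu i) _)
    (ind_iff_li.1 hi))

theorem exists_basis (L : Subfield Om) {S : Set Om} (hS : S.Finite) :
    ∃ (n : ℕ) (u : Fin n → Om), (∀ i, u i ∈ S) ∧ AlgebraicIndependent L u ∧
      ∀ y ∈ S, y ∈ acl (adj L (range u)) := by
  obtain ⟨I, hI⟩ := (AlgebraicIndependent.matroid L Om).exists_isBasis S
  obtain ⟨n, f, hf, rfl⟩ := (hS.subset hI.subset).fin_param
  exact ⟨n, f, fun i => hI.subset ⟨i, rfl⟩, Trd_of_indep hf hI.indep,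
    fun y hy => mem_acl.2 (Trd_mem_closure.1 (hI.subset_closure hy))⟩

theorem Free.of_LD {L Kb : Subfield Om} {S : Set Om} (hS : S.Finite) (hL : L ≤ Kb)
    (h : LD L (adj L S) Kb) : Free L S Kb := by
  obtain ⟨n, u, h1, h2, h3⟩ := exists_basis L hS
  exact ⟨n, u, h1, ind_of_LD (h.symm (le_adj _ _) hL) (fun i => mem_adj _ (h1 i)) h2, h3⟩

theorem Free.acl_right {L Kb : Subfield Om} {S : Set Om} (h : Free L S Kb) : Free L S (acl Kb) :=
  let ⟨n, u, h1, h2, h3⟩ := h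
  ⟨n, u, h1, ind_acl h2, h3⟩

theorem Free.mono {L L' Kb Kb' : Subfield Om} {S : Set Om} (h : Free L S Kb) (hL : L ≤ L')
    (hK : Kb' ≤ Kb) : Free L' S Kb' :=
  let ⟨n, u, h1, h2, h3⟩ := h
  ⟨n, u, h1, Trd_restrict hK h2, fun y hy => acl_mono (adj_mono hL subset_rfl) (h3 y hy)⟩

/-- over an algebraically closed field, free extensions are linearly disjoint -/
theorem Free.ld [IsAlgClosed Om] [CharZero Om] {L Kb : Subfield Om} {S : Set Om}
    (ha : IsAlgClosed L) (hL : L ≤ Kb) (h : Free L S Kb) : LD L (adj L S) Kb := by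
  obtain ⟨n, u, -, h2, h3⟩ := h.acl_right
  have hL' := hL.trans (le_acl Kb)
  have hk := isAlgClosed_acl Kb
  have := gp_neBot h2
  have hF : adj L S ≤ acl (adj L (range u)) := adj_le ((le_adj _ _).trans (le_acl _)) h3
  intro m b hb hi c hc h0 i
  by_contra hne
  obtain ⟨O, o1, o2, e', he', o3⟩ := ((gp_ov (k := acl Kb) (s := u)).and
    ((eventually_all.2 fun j => gp_rs hL' ha (hF (hc j))).and
      (gp_rs hL' ha (inv_mem (hF (hc i)))))).exists
  choose e he r using o2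
  have h4 := Rs.sum Finset.univ fun j _ =>
    (r j).mul o1 (hL' (he j)) (le_acl Kb (hb j)) (Rs.refl O (b j))
  rw [h0] at h4
  exact (r i).ne_zero o1 hne (hL' (he i)) (hL' he') o3 (hi e he (Rs.uniq o1 (sum_mem fun j _ =>
    mul_mem (hL' (he j)) (le_acl Kb (hb j))) (zero_mem _) h4 (Rs.refl O 0)) i)

theorem ind_swap {ι κ : Type*} {L Kb : Subfield Om} (hL : L ≤ Kb) {s : ι → Om} {u : κ → Om}
    (hs : AlgebraicIndependent L s) (hsK : ∀ i, s i ∈ Kb) (hu : AlgebraicIndependent Kb u) :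
    AlgebraicIndependent (acl (adj L (range u))) s := by
  have h1 := (Trd_sum hL hs hsK hu).comp _ (Equiv.sumComm ι κ).injective
  have e : Sum.elim u s ∘ Equiv.sumComm ι κ = Sum.elim s u := by
    funext x; rcases x with x | x <;> rfl
  rw [e, AlgebraicIndependent.sumElim_iff, ← IntermediateField.algebraicIndependent_adjoin_iff] at h1
  refine ind_acl ?_
  rw [adj, closure_eq_adjoin]
  exact h1.2

/-- specialisation of a second model -/
theorem spec_free [IsAlgClosed Om] [CharZero Om] {L0 L1 L2 Kb : Subfield Om} (h01 : L0 ≤ L1)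
    (h1 : L1 ≤ Kb) (h2 : L2 ≤ Kb) (a0 : IsAlgClosed L0) (a1 : IsAlgClosed L1) {ι : Type}
    {z : ι → Om} (hz : AlgebraicIndependent L1 z) (hzK : ∀ i, z i ∈ Kb)
    (hL2 : L2 ≤ acl (adj L0 (range z))) {S1 S2 : Set Om} (n1 : S1.Finite) (n2 : S2.Finite)
    (f1 : Free L1 S1 Kb) (f2 : Free L2 S2 Kb) (e : adj Kb S1 = adj Kb S2) :
    ∃ S : Finset Om, adj L1 S1 = adj L1 S ∧ Free L0 S L1 := by
  classical
  obtain ⟨B, hB, hzB⟩ := (Trd_indep hz).subset_isBasis_of_subset (X := (Kb : Set Om))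
    (range_subset_iff.2 hzK)
  have hs : AlgebraicIndependent L1 (fun b : B => (b : Om)) := hB.indep
  have hr : range (fun b : B => (b : Om)) = B := Subtype.range_coe
  obtain ⟨m, u1, g1, g2, g3⟩ := f1
  obtain ⟨n, u, k1, k2, k3⟩ := f2
  set s : B → Om := fun b : B => (b : Om)
  set k := acl (adj L1 (range u1))
  have hk : IsAlgClosed k := isAlgClosed_acl _
  have := gp_neBot (ind_swap h1 hs (fun b => hB.subset b.2) g2)
  have hL1 : L1 ≤ k := (le_adj _ _).trans (le_acl _)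
  have hW : adj L1 S1 ≤ k := adj_le hL1 g3
  have hKb : Kb ≤ acl (adj L1 (range s)) := fun y hy => by
    rw [hr]; exact mem_acl.2 (Trd_mem_closure.1 (hB.subset_closure hy))
  have hKb' : Kb ≤ acl (adj k (range s)) := hKb.trans (acl_mono (adj_mono hL1 subset_rfl))
  have hk' : k ≤ acl (adj k (range s)) := (le_adj _ _).trans (le_acl _)
  have hM : adj Kb S1 ≤ acl (adj k (range s)) := adj_le hKb' fun y hy => hk' (g3 y hy)
  have rK : ∀ a ∈ Kb, ∀ᶠ O in GP k s, ∃ e ∈ L1, Rs O a e := fun a ha => gp_rs hL1 a1 (hKb ha)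
  have r2 : ∀ y ∈ S2, ∀ᶠ O in GP k s, ∃ e ∈ adj L1 S1, Rs O y e := fun y hy => by
    refine gp_field hk (fun _ => hW) (fun a ha => hM (Subfield.subset_closure ha)) ?_
      (e ▸ mem_adj Kb hy : y ∈ adj Kb S1)
    rintro a (ha | ha)
    · exact (rK a ha).mono fun O ⟨e, he, r⟩ => ⟨e, le_adj _ _ he, r⟩
    · exact .of_forall fun O => ⟨a, mem_adj _ ha, Rs.refl O a⟩
  let ρ : ValuationSubring Om → Om → Om := fun O y =>
    if h : ∃ e ∈ adj L1 S1, Rs O y e then h.choose else 0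
  have ρ1 : ∀ O y, ρ O y ∈ adj L1 S1 := fun O y => by
    simp only [ρ]
    split_ifs with h
    · exact h.choose_spec.1
    · exact zero_mem _
  have ρ2 : ∀ y ∈ S2, ∀ᶠ O in GP k s, Rs O y (ρ O y) := fun y hy => (r2 y hy).mono fun O h => by
    simp only [ρ, dif_pos h]
    exact h.choose_spec.2
  have hS2 : ∀ y ∈ S2, y ∈ acl (adj k (range s)) := fun y hy => hM (e ▸ mem_adj Kb hy)
  have le1 : ∀ O, adj L1 (ρ O '' S2) ≤ adj L1 S1 := fun O =>
    adj_le (le_adj _ _) (by rintro _ ⟨y, -, rfl⟩; exact ρ1 O y)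
  have r1 : ∀ x ∈ S1, ∀ᶠ O in GP k s, x ∈ adj L1 (ρ O '' S2) := fun x hx => by
    have : ∀ᶠ O in GP k s, ∃ e ∈ adj L1 (ρ O '' S2), Rs O x e := by
      refine gp_field hk (fun O => (le1 O).trans hW)
        (fun a ha => ha.elim (fun h => hKb' h) (hS2 a)) ?_ (e ▸ mem_adj Kb hx : x ∈ adj Kb S2)
      rintro a (ha | ha)
      · exact (rK a ha).mono fun O ⟨e, he, r⟩ => ⟨e, le_adj _ _ he, r⟩
      · exact (ρ2 a ha).mono fun O r => ⟨_, mem_adj _ ⟨a, ha, rfl⟩, r⟩
    filter_upwards [this, gp_ov] with O ⟨e, he, r⟩ o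
    rwa [Rs.uniq o (g3 x hx) (hW (le1 O he)) (Rs.refl O x) r]
  have le0 : ∀ O, adj L0 (range fun i => ρ O (u i)) ≤ k := fun O =>
    adj_le (h01.trans hL1) (by rintro _ ⟨i, rfl⟩; exact hW (ρ1 O _))
  have r0 : ∀ y ∈ S2, ∀ᶠ O in GP k s, ρ O y ∈ acl (adj L0 (range fun i => ρ O (u i))) :=
    fun y hy => by
    have hA : ∀ a ∈ (L2 : Set Om) ∪ range u, a ∈ acl (adj k (range s)) := by
      rintro a (ha | ⟨i, rfl⟩)
      · exact hKb' (h2 ha)
      · exact hS2 _ (k1 i)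
    have := gp_alg hk le0 (Subfield.closure_le.2 hA) (fun a ha => gp_field hk le0 hA ?_ ha) (k3 y hy)
    · filter_upwards [this, gp_ov, ρ2 y hy] with O ⟨e, he, he', r⟩ o r'
      rwa [Rs.uniq o (hW (ρ1 O y)) he r' r]
    · rintro a (ha | ⟨i, rfl⟩)
      · exact (gp_rs (h01.trans hL1) a0 (acl_mono (adj_mono le_rfl (hzB.trans hr.ge)) (hL2 ha))).mono
          fun O ⟨e, he, r⟩ => ⟨e, le_adj _ _ he, r⟩
      · exact (ρ2 _ (k1 i)).mono fun O r => ⟨_, mem_adj _ ⟨i, rfl⟩, r⟩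
  obtain ⟨O, o1, o0⟩ := (((eventually_all_finite n1).2 r1).and
    ((eventually_all_finite n2).2 r0)).exists
  have e1 : adj L1 S1 = adj L1 (ρ O '' S2) := le_antisymm (adj_le (le_adj _ _) o1) (le1 O)
  refine ⟨(n2.image (ρ O)).toFinset, by rw [Finite.coe_toFinset, e1], n, fun i => ρ O (u i),
    fun i => by rw [Finite.coe_toFinset]; exact ⟨_, k1 i, rfl⟩, indep_of_trk ?_,
    fun y hy => by
      rw [Finite.coe_toFinset] at hy
      obtain ⟨y, hy, rfl⟩ := hy
      exact o0 y hy⟩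
  refine (card_le_trk (S := S1) k2 fun i => Trd_alg_of_mem (e.ge (mem_adj Kb (k1 i)))).trans
    ((trk_anti h1 S1).trans (trk_le_of_alg fun x hx => mem_acl.1 ?_))
  refine (adj_le ((le_adj _ _).trans (le_acl _)) ?_ : adj L1 (ρ O '' S2) ≤ _) (o1 x hx)
  rintro _ ⟨y, hy, rfl⟩
  exact acl_mono (adj_mono h01 subset_rfl) (o0 y hy)

theorem spec [IsAlgClosed Om] [CharZero Om] {L0 L1 L2 Kb : Subfield Om} (h01 : L0 ≤ L1)
    (h1 : L1 ≤ Kb) (h2 : L2 ≤ Kb) (a0 : IsAlgClosed L0) (a1 : IsAlgClosed L1) {ι : Type}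
    {z : ι → Om} (hz : AlgebraicIndependent L1 z) (hzK : ∀ i, z i ∈ Kb)
    (hL2 : L2 ≤ acl (adj L0 (range z))) {S1 S2 : Set Om} (n1 : S1.Finite) (n2 : S2.Finite)
    (f1 : Free L1 S1 Kb) (f2 : Free L2 S2 Kb) (e : adj Kb S1 = adj Kb S2) :
    DO L0 L1 (adj L1 S1) :=
  let ⟨S, h, f⟩ := spec_free h01 h1 h2 a0 a1 hz hzK hL2 n1 n2 f1 f2 e
  ⟨S, h, f.ld a0 h01⟩

/-- base change of a field of definition upwards -/
theorem DO.up [IsAlgClosed Om] [CharZero Om] {L0 L1 Kb : Subfield Om} (h01 : L0 ≤ L1)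
    (h1 : L1 ≤ Kb) (a0 : IsAlgClosed L0) {S1 : Set Om} (f1 : Free L1 S1 Kb)
    (h : DO L0 L1 (adj L1 S1)) : DO L0 Kb (adj Kb S1) := by
  obtain ⟨S, e, l⟩ := h
  obtain ⟨n, u, k1, k2, k3⟩ := Free.of_LD S.finite_toSet h01 l
  obtain ⟨m, u1, -, g2, g3⟩ := f1
  refine ⟨S, le_antisymm (adj_le (le_adj _ _) fun y hy => adj_mono h1 subset_rfl
    (e ▸ mem_adj L1 hy)) (adj_le (le_adj _ _) fun y hy => adj_mono h1 subset_rfl
    (e ▸ mem_adj L1 hy : y ∈ adj L1 S1)), Free.ld a0 (h01.trans h1) ⟨n, u, k1,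
      Trd_free h1 g2 k2 fun j => mem_acl.1 ?_, k3⟩⟩
  exact (adj_le ((le_adj _ _).trans (le_acl _)) g3 : adj L1 S1 ≤ _) (e ▸ mem_adj L1 (k1 j))

/-- two free fields of definition -/
theorem amalg [IsAlgClosed Om] [CharZero Om] {L0 L1 L2 Kb Mb : Subfield Om} (h01 : L0 ≤ L1)
    (h1 : L1 ≤ Kb) (h2 : L2 ≤ Kb) (a0 : IsAlgClosed L0) (a1 : IsAlgClosed L1) {ι : Type}
    {z : ι → Om} (hz : AlgebraicIndependent L1 z) (hzK : ∀ i, z i ∈ Kb)
    (hL2 : L2 ≤ acl (adj L0 (range z))) (d1 : DO L1 Kb Mb) (d2 : DO L2 Kb Mb) : DO L0 Kb Mb := by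
  obtain ⟨S1, e1, l1⟩ := d1
  obtain ⟨S2, e2, l2⟩ := d2
  have f1 := Free.of_LD S1.finite_toSet h1 l1
  rw [e1]
  exact DO.up h01 h1 a0 f1 (spec h01 h1 h2 a0 a1 hz hzK hL2 S1.finite_toSet S2.finite_toSet f1
    (Free.of_LD S2.finite_toSet h2 l2) (e1.symm.trans e2))

/-- a larger algebraically closed field of definition -/
theorem DO.mono [IsAlgClosed Om] [CharZero Om] {L0 L1 Kb Mb : Subfield Om} (h01 : L0 ≤ L1)
    (h1 : L1 ≤ Kb) (a1 : IsAlgClosed L1) (d : DO L0 Kb Mb) : DO L1 Kb Mb :=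
  let ⟨S, e, l⟩ := d
  ⟨S, e, ((Free.of_LD S.finite_toSet (h01.trans h1) l).mono h01 le_rfl).ld a1 h1⟩

section Map

variable {Om' : Type} [Field Om'] (ψ : Om →+* Om')

theorem adj_map (F : Subfield Om) (S : Set Om) : (adj F S).map ψ = adj (F.map ψ) (ψ '' S) := by
  rw [adj, RingHom.map_field_closure, image_union]
  rfl

theorem ind_map {ι : Type*} {F : Subfield Om} {u : ι → Om} :
    AlgebraicIndependent (F.map ψ) (ψ ∘ u) ↔ AlgebraicIndependent F u :=
  Trd_map_iff (k0 := F) ψ fun _ => Subfield.mem_map.trans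
    ⟨fun ⟨a, ha, e⟩ => ⟨⟨a, ha⟩, e⟩, fun ⟨a, e⟩ => ⟨a, a.2, e⟩⟩

theorem mem_acl_map {F : Subfield Om} {y : Om} : ψ y ∈ acl (F.map ψ) ↔ y ∈ acl F := by
  have := ind_map ψ (F := F) (u := fun _ : Unit => y)
  rw [algebraicIndependent_unique_type_iff, algebraicIndependent_unique_type_iff] at this
  rw [mem_acl, mem_acl]
  exact not_iff_not.1 this

theorem acl_map_le (F : Subfield Om) : (acl F).map ψ ≤ acl (F.map ψ) := by
  rintro _ ⟨y, hy, rfl⟩
  exact (mem_acl_map ψ).2 hy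

theorem acl_map [IsAlgClosed Om] (F : Subfield Om) : (acl F).map ψ = acl (F.map ψ) := by
  refine le_antisymm (acl_map_le ψ F) fun y hy => ?_
  have hy' : IsAlgebraic ψ.fieldRange y :=
    isAlgebraic_of_le (fun _ h => let ⟨a, _, e⟩ := Subfield.mem_map.1 h; ⟨a, e⟩) (mem_acl.1 hy)
  have : IsAlgClosed ψ.fieldRange := IsAlgClosed.of_ringEquiv Om _ ψ.rangeRestrictFieldEquiv
  obtain ⟨⟨_, a, rfl⟩, rfl⟩ := minpoly.mem_range_of_degree_eq_one ψ.fieldRange y
    (IsAlgClosed.degree_eq_one_of_irreducible _ (minpoly.irreducible hy'.isIntegral))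
  exact ⟨a, (mem_acl_map ψ).1 hy, rfl⟩

theorem DO.map {A B C : Subfield Om} (h : DO A B C) : DO (A.map ψ) (B.map ψ) (C.map ψ) := by
  classical
  obtain ⟨S, e, l⟩ := h
  refine ⟨S.image ψ, by rw [e, adj_map, Finset.coe_image], fun n b hb hi c hc h0 i => ?_⟩
  rw [Finset.coe_image, ← adj_map] at hc
  choose b' hb' eb using hb
  choose c' hc' ec using hc
  have h2 : ∑ j, c' j * b' j = 0 := ψ.injective (by
    simp only [map_sum, map_mul, eb, ec, h0, map_zero])
  rw [← ec i, l n b' hb' (fun k hk h1 j => ψ.injective ?_) c' hc' h2 i, map_zero]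
  rw [map_zero]
  refine hi (fun j => ψ (k j)) (fun j => ⟨_, hk j, rfl⟩) ?_ j
  simp only [← eb, ← map_mul, ← map_sum, h1, map_zero]

theorem DO.of_map {A B C : Subfield Om} (h : DO (A.map ψ) (B.map ψ) (C.map ψ)) : DO A B C := by
  classical
  obtain ⟨S, e, l⟩ := h
  have hS : ψ '' (S.preimage ψ ψ.injective.injOn : Set Om) = S := by
    rw [Finset.coe_preimage]
    exact image_preimage_eq_of_subset fun y hy => by
      obtain ⟨a, -, ha⟩ : y ∈ C.map ψ := e ▸ mem_adj _ hy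
      exact ⟨a, ha⟩
  refine ⟨S.preimage ψ ψ.injective.injOn, ?_, fun n b hb hi c hc h0 i => ψ.injective ?_⟩
  · rw [← hS, ← adj_map] at e
    ext y
    have := SetLike.ext_iff.1 e (ψ y)
    simpa only [Subfield.mem_map, ψ.injective.eq_iff, exists_eq_right] using this
  · rw [map_zero]
    refine l n (fun j => ψ (b j)) (fun j => ⟨_, hb j, rfl⟩) (fun k hk h1 j => ?_)
      (fun j => ψ (c j)) (fun j => ?_) ?_ i
    · choose k' hk' ek using hk
      have h2 : ∑ j, k' j * b j = 0 := ψ.injective (by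
        simp only [map_sum, map_mul, ek, h1, map_zero])
      rw [← ek j, hi k' hk' h2 j, map_zero]
    · rw [← hS, ← adj_map]
      exact ⟨_, hc j, rfl⟩
    · simp only [← map_mul, ← map_sum, h0, map_zero]

end Map

section Bridge

variable [Algebra ℂ Om]

theorem sup_adjoin (A : IntermediateField ℂ Om) (S : Set Om) :
    (A ⊔ IntermediateField.adjoin ℂ S).toSubfield = adj A.toSubfield S := by
  apply le_antisymm
  · rw [IntermediateField.sup_toSubfield, IntermediateField.adjoin_toSubfield]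
    refine sup_le (le_adj _ _) (Subfield.closure_le.2 ?_)
    rintro y (⟨c, rfl⟩ | hy)
    · exact le_adj _ _ (A.algebraMap_mem c)
    · exact mem_adj _ hy
  · exact adj_le (fun y hy => (le_sup_left : A ≤ A ⊔ IntermediateField.adjoin ℂ S) hy) fun y hy =>
      (le_sup_right : IntermediateField.adjoin ℂ S ≤ A ⊔ _) (IntermediateField.subset_adjoin ℂ S hy)

theorem aclC_eq (K : IntermediateField ℂ Om) : (aclC K).toSubfield = acl K.toSubfield := by
  ext y
  rw [mem_acl]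
  exact mem_algebraicClosure_iff (F := K)

theorem definedOver_iff {K0 Kb Mb : IntermediateField ℂ Om} :
    DefinedOver K0 Kb Mb ↔ DO K0.toSubfield Kb.toSubfield Mb.toSubfield := by
  refine exists_congr fun S => and_congr ?_ ?_
  · rw [← sup_adjoin, eq_comm]
    exact IntermediateField.toSubfield_injective.eq_iff.symm
  · rw [← sup_adjoin]
    exact ⟨fun h => LD_of_linearIndependent h, fun h n b hb hi => h.linearIndependent hb hi⟩

end Bridge

end Pool.Agent.Lib.MP_5c318e_ag.Fo
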