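import Pool.Agent.Lib.MP_5c318e_ag.Fo.Spec

/-! The chain over the coordinates of the base, and the bound for the variation. -/

set_option autoImplicit false

namespace Pool.Agent.Lib.MP_5c318e_ag.Fo

open Set

variable {Om : Type} [Field Om]

theorem DO.self (Kb : Subfield Om) (S : Finset Om) : DO Kb Kb (adj Kb S) :=
  ⟨S, rfl, LD.symm le_rfl (le_adj _ _) fun _ _ _ hi => hi⟩

/-- defined over `k(x_i, i ≠ j)` for each `j ∈ T`: defined over `k(x_i, i ∉ T)` -/
theorem chain [IsAlgClosed Om] [CharZero Om] {k Kb Mb : Subfield Om} {ι : Type} {x : ι → Om}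
    (hx : AlgebraicIndependent k x) (hk : k ≤ Kb) (hxK : ∀ i, x i ∈ Kb) (aK : acl Kb ≤ Kb)
    (h0 : DO (acl (adj k (range x))) Kb Mb) {T : Set ι} (hT : T.Finite)
    (h : ∀ j ∈ T, DO (acl (adj k (x '' {j}ᶜ))) Kb Mb) : DO (acl (adj k (x '' Tᶜ))) Kb Mb := by
  have le : ∀ U : Set ι, acl (adj k (x '' U)) ≤ Kb := fun U =>
    (acl_mono (adj_le hk (forall_mem_image.2 fun i _ => hxK i))).trans aK
  induction T, hT using Set.Finite.induction_on with
  | empty => rwa [compl_empty, image_univ]
  | @insert j T _ _ ih =>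
    refine amalg (ι := Unit) (z := fun _ => x j) (acl_mono (adj_mono le_rfl (image_mono
      (compl_subset_compl.2 (by simp))))) (le _) (le Tᶜ) (isAlgClosed_acl _) (isAlgClosed_acl _)
      (ind_acl ?_) (fun _ => hxK j) (acl_mono (adj_le ?_ ?_)) (h j (mem_insert _ _))
      (ih fun i hi => h i (mem_insert_of_mem _ hi))
    · rw [algebraicIndependent_unique_type_iff, adj, closure_eq_adjoin]
      exact IntermediateField.transcendental_adjoin_iff.2
        (hx.transcendental_adjoin (s := {j}ᶜ) (i := j) (by simp))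
    · exact ((le_adj _ _).trans (le_acl _)).trans (le_adj _ _)
    · rintro _ ⟨i, hi, rfl⟩
      by_cases e : i = j
      · exact mem_adj _ ⟨(), by rw [e]⟩
      · exact le_adj _ _ (le_acl _ (mem_adj _ ⟨i, by simpa [e] using hi, rfl⟩))

variable [Algebra ℂ Om] [IsAlgClosed Om]

theorem adj_C0 (S : Set Om) : adj (C0 Om) S = (IntermediateField.adjoin ℂ S).toSubfield := by
  rw [IntermediateField.adjoin_toSubfield]
  rfl

/-- a field of definition that is algebraic over `ℂ(w)` bounds the variation -/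
theorem var_le_of_DO {Kb Mb : IntermediateField ℂ Om} {ε : Type} [Fintype ε] {w : ε → Om}
    (le : acl (adj (C0 Om) (range w)) ≤ Kb.toSubfield)
    (h : DO (acl (adj (C0 Om) (range w))) Kb.toSubfield Mb.toSubfield) :
    Var Kb Mb ≤ Fintype.card ε := by
  let A := aclC (IntermediateField.adjoin ℂ (range w))
  have e : A.toSubfield = acl (adj (C0 Om) (range w)) := by rw [adj_C0, aclC_eq]
  rw [← e] at le h
  refine le_trans (b := Algebra.trdeg ℂ A) (csInf_le' ⟨A, le, isAlgClosed_acl
    (IntermediateField.adjoin ℂ (range w)).toSubfield, definedOver_iff.2 h, rfl⟩) ?_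
  rw [← Cardinal.toENat_le_natCast, ← trk_eq_trdeg (k := C0 Om) A.val.toRingHom fun _ => mem_C0]
  refine (trk_le_of_alg ?_).trans (trk_range_le _ w)
  rintro _ ⟨y, rfl⟩
  exact mem_acl.1 (e ▸ y.2)

/-- V3: if the geometric generic fibre is defined over `acl ℂ(z_i, i ≠ inr j)` for every `j`, the
variation is at most `card ε` -/
theorem var_le {K M : IntermediateField ℂ Om} {ε γ : Type} [Fintype ε] [Finite γ]
    {z : ε ⊕ γ → Om} (hz : AlgebraicIndependent ℂ z) (hzK : ∀ i, z i ∈ K)
    (alg : K.toSubfield ≤ acl (adj (C0 Om) (range z))) (S : Finset Om)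
    (fg : (M ⊔ aclC K).toSubfield = adj (acl K.toSubfield) S)
    (h : ∀ j : γ, DO (acl (adj (C0 Om) (z '' {Sum.inr j}ᶜ))) (acl K.toSubfield)
      (M ⊔ aclC K).toSubfield) : Var (aclC K) (M ⊔ aclC K) ≤ Fintype.card ε := by
  have := charZero_of_algebra (Om := Om)
  have hk : C0 Om ≤ acl K.toSubfield := fun _ ⟨c, hc⟩ => le_acl _ (hc ▸ K.algebraMap_mem c)
  have hz' : AlgebraicIndependent (C0 Om) z :=
    (Trd_map_iff (RingHom.id Om) fun _ => mem_C0).2 hz
  have e : acl (adj (C0 Om) (range z)) = acl K.toSubfield := le_antisymm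
    (acl_le (adj_le hk (forall_mem_range.2 fun i => le_acl _ (hzK i)))) (acl_le alg)
  have key := chain hz' hk (fun i => le_acl _ (hzK i)) (acl_acl _).le
    (by rw [e, fg]; exact DO.self _ S) (finite_range (Sum.inr : γ → ε ⊕ γ))
    (forall_mem_range.2 h)
  rw [compl_range_inr, ← range_comp] at key
  refine var_le_of_DO ?_ (aclC_eq K ▸ key)
  rw [aclC_eq, ← e]
  exact acl_mono (adj_mono le_rfl (range_comp_subset_range _ _))

end Pool.Agent.Lib.MP_5c318e_ag.Fo
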