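import Pool.Agent.Lib.MP_5c318e_ag.Val
import Pool.Agent.Lib.MP_5c318e_ag.Rigid
import Pool.Agent.Lib.MP_5c318e_ag.Trd
import Pool.Agent.Lib.MP_5c318e_ag.LDTensor

/-! General places: specialise a transcendence basis to general integers. -/

set_option autoImplicit false

namespace Pool.Agent.Lib.MP_5c318e_ag.Fo

open Filter Set Polynomial

variable {Om : Type} [Field Om]

/-- `e` is a residue of `y` at `O` -/
def Rs (O : ValuationSubring Om) (y e : Om) : Prop := O.valuation (y - e) < 1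

/-- `O` contains `k` -/
def Ov (O : ValuationSubring Om) (k : Subfield Om) : Prop := ∀ a ∈ k, O.valuation a ≤ 1

section

variable {O : ValuationSubring Om} {k : Subfield Om} {y y' e e' : Om}

theorem Rs.refl (O : ValuationSubring Om) (y : Om) : Rs O y y := by simp [Rs]

theorem Rs.add (h : Rs O y e) (h' : Rs O y' e') : Rs O (y + y') (e + e') := by
  rw [Rs, add_sub_add_comm]
  exact O.valuation.map_add_lt h h'

theorem Rs.neg (h : Rs O y e) : Rs O (-y) (-e) := by
  rw [Rs, neg_sub_neg, O.valuation.map_sub_swap]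
  exact h

theorem Rs.mul (hk : Ov O k) (he : e ∈ k) (he' : e' ∈ k) (h : Rs O y e) (h' : Rs O y' e') :
    Rs O (y * y') (e * e') := by
  have : y * y' - e * e' = (y - e) * y' + e * (y' - e') := by ring
  rw [Rs, this]
  refine O.valuation.map_add_lt ?_ ?_ <;> rw [map_mul]
  · exact lt_of_le_of_lt (mul_le_of_le_one_right' (Rigid_le _ (hk _ he') h')) h
  · exact lt_of_le_of_lt (mul_le_of_le_one_left' (hk _ he)) h'

theorem Rs.uniq (hk : Ov O k) (he : e ∈ k) (he' : e' ∈ k) (h : Rs O y e) (h' : Rs O y e') :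
    e = e' := by
  by_contra hne
  have h1 : O.valuation (e - e') = 1 := v_eq_one_of_isAlgebraic hk
    (isAlgebraic_algebraMap (⟨e - e', k.sub_mem he he'⟩ : k)) (sub_ne_zero.2 hne)
  have h2 := h.neg.add h'
  rw [Rs, neg_add_cancel, zero_sub, Valuation.map_neg, neg_add_eq_sub,
    O.valuation.map_sub_swap, h1] at h2
  exact lt_irrefl _ h2

theorem Rs.ne_zero (hk : Ov O k) (h0 : y ≠ 0) (he : e ∈ k) (he' : e' ∈ k) (h : Rs O y e)
    (h' : Rs O y⁻¹ e') : e ≠ 0 := fun h1 => by
  have h2 := h.mul hk he he' h'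
  rw [mul_inv_cancel₀ h0, h1, zero_mul] at h2
  exact one_ne_zero (Rs.uniq hk k.one_mem k.zero_mem (Rs.refl O 1) h2)

theorem Rs.inv (hk : Ov O k) (he : e ∈ k) (h0 : e ≠ 0) (h : Rs O y e) : Rs O y⁻¹ e⁻¹ := by
  have h1 : O.valuation e = 1 :=
    v_eq_one_of_isAlgebraic hk (isAlgebraic_algebraMap (⟨e, he⟩ : k)) h0
  have h2 : O.valuation y = 1 := by
    rw [← h1]
    exact Valuation.map_eq_of_sub_lt _ (h1 ▸ h)
  have hy : y ≠ 0 := fun h3 => by simp [h3] at h2
  have : y⁻¹ - e⁻¹ = -((y - e) * (y⁻¹ * e⁻¹)) := by field_simp; ring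
  rw [Rs, this, Valuation.map_neg, map_mul, map_mul, map_inv₀, map_inv₀, h1, h2]
  simpa [Rs] using h

theorem Rs.pow (hk : Ov O k) (he : e ∈ k) (h : Rs O y e) (n : ℕ) : Rs O (y ^ n) (e ^ n) := by
  induction n with
  | zero => simpa using Rs.refl O 1
  | succ n ih => rw [pow_succ, pow_succ]; exact ih.mul hk (k.pow_mem he n) he h

theorem Rs.sum {J : Type*} (s : Finset J) {f g : J → Om} (h : ∀ j ∈ s, Rs O (f j) (g j)) :
    Rs O (∑ j ∈ s, f j) (∑ j ∈ s, g j) := by
  rw [Rs, ← Finset.sum_sub_distrib]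
  exact O.valuation.map_sum_lt one_ne_zero h

end

/-- general places of `Om` over `k` that send the family `s` to integers -/
def GP {ι : Type} (k : Subfield Om) (s : ι → Om) : Filter (ValuationSubring Om) :=
  generate ({{O | Ov O k}} ∪ {U | ∃ k' t, k' ≤ k ∧ IsAlgClosed k' ∧ t ∈ acl (adj k' (range s)) ∧
    U = {O | ∃ e ∈ k', Rs O t e}})

variable {ι : Type} {k : Subfield Om} {s : ι → Om}

theorem gp_ov : ∀ᶠ O in GP k s, Ov O k := mem_generate_of_mem (Or.inl rfl)

theorem gp_rs {k' : Subfield Om} (hk : k' ≤ k) (ha : IsAlgClosed k') {t : Om}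
    (ht : t ∈ acl (adj k' (range s))) : ∀ᶠ O in GP k s, ∃ e ∈ k', Rs O t e :=
  mem_generate_of_mem (Or.inr ⟨k', t, hk, ha, ht, rfl⟩)

theorem gp_neBot [CharZero Om] (hs : AlgebraicIndependent k s) : (GP k s).NeBot := by
  classical
  have key : ∀ U ∈ GP k s, ∃ d ∈ Algebra.adjoin k (range s), d ≠ 0 ∧ ∀ O : ValuationSubring Om,
      Ov O k → O.valuation d = 1 → (∀ i, ∃ n : ℕ, O.valuation (s i - n) < 1) → O ∈ U := by
    intro U hU
    have nice : ∀ (O : ValuationSubring Om) (k' : Subfield Om), Ov O k' →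
        (∀ i, ∃ n : ℕ, O.valuation (s i - n) < 1) → ∀ a ∈ Algebra.adjoin k' (range s),
        ∃ e ∈ k', O.valuation (a - e) < 1 := fun O k' h1 h2 a ha => by
      obtain ⟨e, he, h, -⟩ := Rigid_nice (R := ℤ) O.valuation k' s 0 (fun _ _ => k'.zero_mem)
        (fun _ => rfl) h1 h2 a ha
      exact ⟨e, he, h⟩
    induction hU with
    | basic h =>
      rcases h with rfl | ⟨k', t, hk, ha, ht, rfl⟩
      · exact ⟨1, one_mem _, one_ne_zero, fun O h _ _ => h⟩
      · obtain ⟨q, hq, h0, h1⟩ := Rigid_poly k' (range s) t (mem_acl.1 ht)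
        have hle : ∀ a ∈ Algebra.adjoin k' (range s), a ∈ Algebra.adjoin k (range s) := by
          intro a h
          induction h using Algebra.adjoin_induction with
          | mem x hx => exact Algebra.subset_adjoin hx
          | algebraMap r => exact (Algebra.adjoin k (range s)).algebraMap_mem ⟨r, hk r.2⟩
          | add _ _ _ _ h h' => exact add_mem h h'
          | mul _ _ _ _ h h' => exact mul_mem h h'
        refine ⟨q.leadingCoeff, hle _ (hq _), fun h => h1 ?_, fun O h2 h3 h4 => ?_⟩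
        · rw [leadingCoeff_eq_zero.mp h]
          simp
        · exact Rigid_good _ k' (fun a h => h2 a (hk h)) q
            (fun i => nice O k' (fun a h => h2 a (hk h)) h4 _ (hq i)) h3 t h0
    | univ => exact ⟨1, one_mem _, one_ne_zero, fun _ _ _ _ => trivial⟩
    | superset _ h ih =>
      obtain ⟨d, h1, h2, h3⟩ := ih
      exact ⟨d, h1, h2, fun O a b c => h (h3 O a b c)⟩
    | inter _ _ ih ih' =>
      obtain ⟨d, h1, h2, h3⟩ := ih
      obtain ⟨d', h1', h2', h3'⟩ := ih'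
      refine ⟨d * d', mul_mem h1 h1', mul_ne_zero h2 h2', fun O a b c => ?_⟩
      have le : ∀ x ∈ Algebra.adjoin k (range s), O.valuation x ≤ 1 := fun x hx => by
        obtain ⟨e, he, h⟩ := nice O k a c x hx
        exact Rigid_le _ (a e he) h
      rw [map_mul] at b
      exact ⟨h3 O a (le_antisymm (le d h1) (b.ge.trans (mul_le_of_le_one_right' (le d' h1')))) c,
        h3' O a (le_antisymm (le d' h1') (b.ge.trans (mul_le_of_le_one_left' (le d h1)))) c⟩
  refine ⟨fun h => ?_⟩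
  obtain ⟨d, h1, h2, h3⟩ := key ∅ (by rw [h]; exact mem_bot)
  obtain ⟨O, a, b, c⟩ := Rigid_place k s hs d h1 h2
  exact h3 O a b c

/-- residues of the elements of a generated ring -/
theorem ev_ring {l : Filter (ValuationSubring Om)} (hl : ∀ᶠ O in l, Ov O k)
    {R : ValuationSubring Om → Subfield Om} (hR : ∀ O, R O ≤ k) {A : Set Om}
    (h : ∀ a ∈ A, ∀ᶠ O in l, ∃ e ∈ R O, Rs O a e) {p : Om} (hp : p ∈ Subring.closure A) :
    ∀ᶠ O in l, ∃ e ∈ R O, Rs O p e := by
  induction hp using Subring.closure_induction with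
  | mem x hx => exact h x hx
  | zero => exact .of_forall fun O => ⟨0, zero_mem _, Rs.refl O 0⟩
  | one => exact .of_forall fun O => ⟨1, one_mem _, Rs.refl O 1⟩
  | add _ _ _ _ h1 h2 =>
    filter_upwards [h1, h2] with O ⟨e, he, a⟩ ⟨e', he', b⟩ using ⟨_, add_mem he he', a.add b⟩
  | neg _ _ h1 => filter_upwards [h1] with O ⟨e, he, a⟩ using ⟨_, neg_mem he, a.neg⟩
  | mul _ _ _ _ h1 h2 =>
    filter_upwards [h1, h2, hl] with O ⟨e, he, a⟩ ⟨e', he', b⟩ c using
      ⟨_, mul_mem he he', a.mul c (hR O he) (hR O he') b⟩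

/-- residues at a general place of the elements of a generated field -/
theorem gp_field (ha : IsAlgClosed k) {R : ValuationSubring Om → Subfield Om} (hR : ∀ O, R O ≤ k)
    {A : Set Om} (hA : ∀ a ∈ A, a ∈ acl (adj k (range s)))
    (h : ∀ a ∈ A, ∀ᶠ O in GP k s, ∃ e ∈ R O, Rs O a e) {y : Om} (hy : y ∈ Subfield.closure A) :
    ∀ᶠ O in GP k s, ∃ e ∈ R O, Rs O y e := by
  obtain ⟨p, hp, q, hq, h0, rfl⟩ := exists_quot_ring hy
  have hq' : q ∈ acl (adj k (range s)) :=
    (Subring.closure_le (t := (acl (adj k (range s))).toSubring)).2 hA hq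
  filter_upwards [gp_ov, ev_ring gp_ov hR h hp, ev_ring gp_ov hR h hq,
    gp_rs le_rfl ha (inv_mem hq')] with O c ⟨e, he, a⟩ ⟨e', he', b⟩ ⟨e'', he'', b'⟩
  have h1 := b.ne_zero c h0 (hR O he') he'' b'
  refine ⟨e / e', div_mem he he', ?_⟩
  rw [div_eq_mul_inv, div_eq_mul_inv]
  exact a.mul c (hR O he) (inv_mem (hR O he')) (b.inv c (hR O he') h1)

/-- residues at a general place of algebraic elements are algebraic -/
theorem gp_alg (ha : IsAlgClosed k) {R : ValuationSubring Om → Subfield Om} (hR : ∀ O, R O ≤ k)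
    {F : Subfield Om} (hF : F ≤ acl (adj k (range s)))
    (h : ∀ a ∈ F, ∀ᶠ O in GP k s, ∃ e ∈ R O, Rs O a e) {y : Om} (hy : y ∈ acl F) :
    ∀ᶠ O in GP k s, ∃ e ∈ k, e ∈ acl (R O) ∧ Rs O y e := by
  classical
  have hi := (mem_acl.1 hy).isIntegral
  set q := minpoly F y
  have h1 : ∀ᶠ O in GP k s, ∀ i ∈ Finset.range q.natDegree, ∃ e ∈ R O, Rs O (q.coeff i) e :=
    (eventually_all_finset _).2 fun i _ => h _ (q.coeff i).2
  filter_upwards [gp_ov, h1, gp_rs le_rfl ha (acl_le hF hy)] with O c h1 ⟨e, he, a⟩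
  refine ⟨e, he, mem_acl.2 ?_, a⟩
  choose! c' m r using h1
  have h2 : y ^ q.natDegree + ∑ i ∈ Finset.range q.natDegree, (q.coeff i : Om) * y ^ i = 0 := by
    have := minpoly.aeval F y
    rw [aeval_eq_sum_range, Finset.sum_range_succ, (minpoly.monic hi).coeff_natDegree, one_smul,
      add_comm] at this
    exact this
  have h3 := (a.pow c he q.natDegree).add (Rs.sum (Finset.range q.natDegree) fun i hi =>
    (r i hi).mul c (hR O (m i hi)) (k.pow_mem he i) (a.pow c he i))
  rw [h2] at h3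
  have h4 := Rs.uniq c (add_mem (k.pow_mem he _) (sum_mem fun i hi =>
    mul_mem (hR O (m i hi)) (k.pow_mem he i))) k.zero_mem h3 (Rs.refl O 0)
  refine IsIntegral.isAlgebraic ⟨X ^ q.natDegree + ∑ i ∈ (Finset.range q.natDegree).attach,
    C (⟨c' i, m i i.2⟩ : R O) * X ^ (i : ℕ), ?_, ?_⟩
  · refine monic_X_pow_add ((degree_sum_le _ _).trans_lt ?_)
    refine (Finset.sup_lt_iff (WithBot.bot_lt_coe _)).2 fun i _ => ?_
    exact (degree_C_mul_X_pow_le _ _).trans_lt (by exact_mod_cast Finset.mem_range.1 i.2)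
  · rw [← aeval_def, ← h4, ← Finset.sum_attach (Finset.range q.natDegree)]
    simp only [map_add, map_pow, aeval_X, map_sum, map_mul, aeval_C]
    rfl

end Pool.Agent.Lib.MP_5c318e_ag.Fo
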